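import Pool.Agent.R869.NConst
import Pool.Agent.R869.SSix

/-!
MP_46885d_ag, Q1: the geometric Bombieri-Lang conjecture over function fields `K` of curves for the
projective varieties given by linear combinations, with coefficients in `K`, of the powers `x_j ^ d`
and of `s` further monomials of degree `d`, in given sets of variables, for almost all choices of
these monomials, where the genus of `K` and the heights of the coefficients are bounded by a fixed
number: all the `K`-points outside of the rational curves given by orbits of diagonal one-parameter
groups are points over the field of constants `k`. So the Zariski closure `Z` of the `K`-points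
outside of the algebraic special set is the base change of a closed subset `T` of projective space
over `k`, and these points are `k`-points of `T`.

`TuplesIn I d`, `AlmostAllIn I P` (`Pool/Agent/R869/SDefs.lean`): the tuples of exponent vectors of
degree `d`, the `i`-th one of a monomial in the variables from `I i`; the proportion of the tuples
with the property `P` tends to `1` for `d → ∞`. `withPowers` (`WDensDefs.lean`): the set of the
exponent vectors `a i` and of those of the `x_j ^ d`. `PtL ∅ G K f` (`NVojDefs.lean`): `f` is a vector
of homogeneous coordinates of a point over `K` of `X = {G = 0}`. `ConstPt k f` (`NConst.lean`): `f` is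
proportional to a vector with coordinates in `k`. From the starting repository: `IsFF k K`: `K` is a
function field of one variable over `k`; `hgt` (`W603/LV/Hgt.lean`): the height of an element;
`canDeg` (`W603/LV/Ex.lean`): `2 g - 2`; `IsForm`: a homogeneous polynomial.
-/

set_option autoImplicit false

namespace Pool.Agent.Results.MP_46885d_ag.ConstantPoints

open FF MvPolynomial Pool.Agent.W602.GT Pool.Agent.W603.LV Pool.Agent.W603.PV Pool.Agent.R869.Wd

/-- The point `f` over `K` is on a rational curve in `X = {G = 0}` given by a diagonal one-parameter
group: for some `b`, not constant on the nonzero coordinates of `f`, the points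
`(t ^ b_j * f_j)`, `t ≠ 0` in the algebraic closure of `K`, are in `X`. -/
def OnOrbit {K : Type} [Field K] {n m : ℕ} (G : Fin m → MvPolynomial (Fin (n + 1)) K)
    (f : Fin (n + 1) → K) : Prop :=
  ∃ b : Fin (n + 1) → ℤ, (∃ i i', f i ≠ 0 ∧ f i' ≠ 0 ∧ b i ≠ b i') ∧
    ∀ t : AlgebraicClosure K, t ≠ 0 →
      PtL ∅ G (AlgebraicClosure K) fun j => t ^ b j * algebraMap K (AlgebraicClosure K) (f j)

/-- Constant points: (1) the points of `X = {G = 0}` over `K` which are not on the rational curves
given by diagonal one-parameter groups are points over `k`. (2) Let `E` be any set which contains the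
points on these rational curves, such as the algebraic special set. Then the Zariski closure of
`X(K) \ E` in projective space over `K` is defined over `k`: the forms over `K` which vanish on
`X(K) \ E` are linear combinations of forms over `k` with this property. -/
def ConstantPoints (k : Type) {K : Type} [Field k] [Field K] [Algebra k K] {n m : ℕ}
    (G : Fin m → MvPolynomial (Fin (n + 1)) K) : Prop :=
  (∀ f, PtL ∅ G K f → OnOrbit G f ∨ ConstPt k f) ∧
  ∀ E : Set (Fin (n + 1) → K), (∀ f, PtL ∅ G K f → OnOrbit G f → f ∈ E) →
    ∀ H : MvPolynomial (Fin (n + 1)) K, IsForm H → (∀ f, PtL ∅ G K f → f ∉ E → aeval f H = 0) →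
      H ∈ Submodule.span K {P | ∃ H0 : MvPolynomial (Fin (n + 1)) k, IsForm H0 ∧
        (∀ f, PtL ∅ G K f → f ∉ E → aeval f H0 = 0) ∧ P = map (algebraMap k K) H0}

/-- Let `I i` be nonempty sets of variables, and let `h` be a number. For almost all tuples of `s`
monomials of degree `d`, the `i`-th one in the variables from `I i`: for all systems `G` of linear
combinations of these monomials and the `x_j ^ d` with coefficients in a function field `K` of a curve
over `k` with `2 g - 2 ≤ h`, such that the sum of the heights of the coefficients is at most `h`, all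
points of `X = {G = 0}` over `K` outside of certain rational curves are points over `k`, and the
closure of these points, or of those outside of a larger set `E`, is defined over `k`. -/
theorem result (n s : ℕ) (I : Fin s → Finset (Fin (n + 1))) (hI : ∀ i, (I i).Nonempty) (h : ℕ) :
    AlmostAllIn I fun d a =>
      ∀ (k K : Type) [Field k] [IsAlgClosed k] [CharZero k] [Field K] [Algebra k K] [IsFF k K],
        canDeg k K ≤ h → ∀ (m : ℕ) (G : Fin m → MvPolynomial (Fin (n + 1)) K) (C : Finset K),
        (∀ e, (G e).support ⊆ withPowers d a ∧ ∀ α ∈ (G e).support, (G e).coeff α ∈ C) →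
        ∑ c ∈ C, hgt k c ≤ h → ConstantPoints k G := by
  classical
  set s' := s + (n + 1) with hs'
  set N := s' * (n * Pool.Agent.R869.tri (s' - 1)) + 1 +
    (cstC n s' * (1 + h) + (2 * cstC n s' + 4 * n) * h) with hN
  refine (almost_genericI I hI N).mono fun d a ha hw => ?_
  have hg : Good (withPowers d a) s' N :=
    { deg := ⟨d, deg_withPowers fun i => (ha i).2⟩
      pos := by omega
      card := card_withPowers d a
      wide := hw.1
      num := by omega }
  intro k K _ _ _ _ _ _ hK m G C hGC hC
  have hconst : ∀ f, PtL ∅ G K f → OnOrbit G f ∨ ConstPt k f := by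
    intro f hf
    by_cases hp : Parts G f
    · left
      obtain ⟨b, i, i', hi, hi', hb, hw⟩ := hp
      refine ⟨b, ⟨i, i', hi, hi', hb⟩, fun t ht => ⟨?_, fun j hj =>
        absurd hj (Set.notMem_empty j), fun e => ?_⟩⟩
      · intro h0
        exact mul_ne_zero (zpow_ne_zero _ ht) ((map_ne_zero _).2 hi) (congrFun h0 i)
      · refine val_orbit (L := AlgebraicClosure K) (fun j => algebraMap K (AlgebraicClosure K) (f j))
          b ht (G e) fun v => ?_
        have h1 := MvPolynomial.aeval_algebraMap_apply (AlgebraicClosure K) f (wc b v (G e))
        have h2 := hw e v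
        unfold val at h2 ⊢
        rw [h2, map_zero] at h1
        exact h1
    · right
      refine hg.const (fun e => (hGC e).1) (C := C) (fun e => (hGC e).2) ?_ hf hp
      have h0 : 0 ≤ ∑ c ∈ C, hgt k c := Finset.sum_nonneg fun _ _ => hgt_nonneg _
      have h1 : max (canDeg k K) 0 ≤ h := max_le hK (Nat.cast_nonneg _)
      have h2 : (cstC n s' : ℤ) * (1 + max (canDeg k K) 0) ≤ cstC n s' * (1 + h) :=
        mul_le_mul_of_nonneg_left (by linarith) (Nat.cast_nonneg _)
      have h3 : (2 * cstC n s' + 4 * n : ℤ) * ∑ c ∈ C, hgt k c ≤ (2 * cstC n s' + 4 * n) * h :=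
        mul_le_mul_of_nonneg_left hC (by positivity)
      rw [hN]
      push_cast
      have h4 : (0 : ℤ) ≤ s' * (n * Pool.Agent.R869.tri (s' - 1)) := by positivity
      linarith
  refine ⟨hconst, fun E hE H hH h0 => ?_⟩
  have h1 := span_of_const (k := k) {f | PtL ∅ G K f ∧ f ∉ E} (fun f hf =>
    (hconst f hf.1).resolve_left fun ho => hf.2 (hE f hf.1 ho)) H hH fun f hf => h0 f hf.1 hf.2
  refine Submodule.span_mono ?_ h1
  rintro P ⟨H0, h2, h3, rfl⟩
  exact ⟨H0, h2, fun f hf hfE => h3 f ⟨hf, hfE⟩, rfl⟩

end Pool.Agent.Results.MP_46885d_ag.ConstantPoints
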